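import Pool.Agent.W823.QT.Stm

/-!
# QT-STEP: the step law
-/

set_option autoImplicit false

namespace Pool.Agent.W103.QTSTEP

open MeasureTheory ProbabilityTheory Filter Topology Pool.Agent.W845.Traps Pool.Agent.W823.QT
open scoped ENNReal NNReal

/-! ## The Skellam law -/

/-- Poisson on `ℤ` -/
noncomputable def PA (r : ℝ≥0) : Measure ℤ := (poissonMeasure r).map (Nat.cast : ℕ → ℤ)

/-- negated Poisson on `ℤ` -/
noncomputable def NA (r : ℝ≥0) : Measure ℤ := (PA r).map (fun x : ℤ => -x)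

instance (r : ℝ≥0) : IsProbabilityMeasure (PA r) :=
  Measure.isProbabilityMeasure_map (by fun_prop)

instance (r : ℝ≥0) : IsProbabilityMeasure (NA r) :=
  Measure.isProbabilityMeasure_map (by fun_prop)

theorem prob (s : ℝ≥0) : IsProbabilityMeasure (skellam s) := by
  unfold skellam
  exact Measure.isProbabilityMeasure_map (by fun_prop)

instance (s : ℝ≥0) : IsProbabilityMeasure (skellam s) := prob s

theorem skellam_eq (s : ℝ≥0) : skellam s = PA (s / 2) ∗ NA (s / 2) := by
  have h1 : NA (s / 2) = (poissonMeasure (s / 2)).map (fun n : ℕ => -(n : ℤ)) := by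
    unfold NA PA
    rw [Measure.map_map (by fun_prop) (by fun_prop)]
    rfl
  rw [h1]
  unfold skellam PA Measure.conv
  rw [Measure.map_prod_map _ _ (by fun_prop) (by fun_prop),
    Measure.map_map (by fun_prop) (by fun_prop)]
  congr 1

theorem PA_conv (r₁ r₂ : ℝ≥0) : PA r₁ ∗ PA r₂ = PA (r₁ + r₂) :=
  map_cast_poissonMeasure_conv r₁ r₂

theorem NA_conv (r₁ r₂ : ℝ≥0) : NA r₁ ∗ NA r₂ = NA (r₁ + r₂) := by
  have h := Measure.map_conv_addMonoidHom (μ := PA r₁) (ν := PA r₂) (negAddMonoidHom : ℤ →+ ℤ)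
    (by fun_prop)
  rw [PA_conv] at h
  exact h.symm

theorem sk_conv (s r : ℝ≥0) : skellam (s + r) = skellam s ∗ skellam r := by
  rw [skellam_eq, skellam_eq, skellam_eq, add_div, ← PA_conv, ← NA_conv]
  rw [Measure.conv_assoc, Measure.conv_assoc]
  congr 1
  rw [← Measure.conv_assoc, ← Measure.conv_assoc, Measure.conv_comm (PA (r / 2)) (NA (s / 2))]

theorem map_neg (s : ℝ≥0) : (skellam s).map (fun x : ℤ => -x) = skellam s := by
  unfold skellam
  rw [Measure.map_map (by fun_prop) (by fun_prop)]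
  conv_rhs => rw [← Measure.prod_swap, Measure.map_map (by fun_prop) (by fun_prop)]
  congr 1
  funext p
  simp

theorem po_zero : poissonMeasure 0 = Measure.dirac 0 := by
  refine Measure.ext_of_singleton fun n => ?_
  rw [poissonMeasure_singleton, Measure.dirac_apply' _ (MeasurableSet.singleton n)]
  by_cases hn : n = 0
  · subst hn
    simp
  · have h0 : (0 : ℕ) ∉ ({n} : Set ℕ) := fun h => hn (Set.mem_singleton_iff.1 h).symm
    rw [Set.indicator_of_notMem h0]
    simp [hn]

theorem sk_zero : skellam 0 = Measure.dirac 0 := by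
  unfold skellam
  rw [zero_div, po_zero, Measure.dirac_prod_dirac, Measure.map_dirac]
  simp

/-! ## Moments -/

theorem po_rec (ν : ℝ≥0) (g : ℕ → ℝ≥0∞) :
    ∫⁻ n, (n : ℝ≥0∞) * g n ∂(poissonMeasure ν) = ν * ∫⁻ n, g (n + 1) ∂(poissonMeasure ν) := by
  rw [lintegral_countable', tsum_eq_zero_add' ENNReal.summable]
  simp only [Nat.cast_zero, zero_mul, zero_add]
  have h1 : ∀ n : ℕ, ((n + 1 : ℕ) : ℝ≥0∞) * (poissonMeasure ν) {n + 1} =
      ν * (poissonMeasure ν) {n} := by
    intro n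
    rw [poissonMeasure_singleton, poissonMeasure_singleton, ← ENNReal.ofReal_natCast,
      ← ENNReal.ofReal_mul (by positivity), ← ENNReal.ofReal_coe_nnreal (p := ν),
      ← ENNReal.ofReal_mul (by positivity)]
    congr 1
    rw [Nat.factorial_succ, pow_succ]
    have : ((n.factorial : ℕ) : ℝ) ≠ 0 := by positivity
    have : ((n + 1 : ℕ) : ℝ) ≠ 0 := by positivity
    push_cast at *
    field_simp
  have h2 : ∀ n : ℕ, ((n + 1 : ℕ) : ℝ≥0∞) * g (n + 1) * (poissonMeasure ν) {n + 1} =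
      ν * (g (n + 1) * (poissonMeasure ν) {n}) := by
    intro n
    rw [mul_right_comm, h1]
    ring
  simp_rw [h2]
  rw [ENNReal.tsum_mul_left, lintegral_countable']

theorem po_mean (ν : ℝ≥0) : ∫⁻ n, (n : ℝ≥0∞) ∂(poissonMeasure ν) = ν := by
  have h := po_rec ν (fun _ => 1)
  simpa using h

theorem po_second (ν : ℝ≥0) : ∫⁻ n, (n : ℝ≥0∞) ^ 2 ∂(poissonMeasure ν) = ν * (ν + 1) := by
  have h := po_rec ν (fun n => (n : ℝ≥0∞))
  have h2 : ∫⁻ n, ((n + 1 : ℕ) : ℝ≥0∞) ∂(poissonMeasure ν) = ν + 1 := by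
    simp only [Nat.cast_add, Nat.cast_one]
    rw [lintegral_add_right _ measurable_const, po_mean]
    simp
  rw [h2] at h
  rw [← h]
  congr 1
  funext n
  rw [_root_.sq]

theorem sk_second (s : ℝ≥0) : ∫⁻ z, sq z ∂(skellam s) = s := by
  set l : ℝ≥0 := s / 2 with hl
  have h1 : ∫⁻ z, sq z ∂(skellam s) = ∫⁻ p : ℕ × ℕ, W823.QT.sq ((p.1 : ℤ) - p.2)
      ∂((poissonMeasure l).prod (poissonMeasure l)) := by
    unfold skellam
    rw [lintegral_map (by fun_prop) (by fun_prop)]
  have h2 : ∀ p : ℕ × ℕ, W823.QT.sq ((p.1 : ℤ) - p.2) + 2 * ((p.1 : ℝ≥0∞) * (p.2 : ℝ≥0∞)) =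
      (p.1 : ℝ≥0∞) ^ 2 + (p.2 : ℝ≥0∞) ^ 2 := by
    intro p
    unfold W823.QT.sq
    rw [← ENNReal.ofReal_natCast, ← ENNReal.ofReal_natCast, ← ENNReal.ofReal_mul (by positivity),
      ← ENNReal.ofReal_pow (by positivity), ← ENNReal.ofReal_pow (by positivity),
      ← ENNReal.ofReal_ofNat 2, ← ENNReal.ofReal_mul (by positivity),
      ← ENNReal.ofReal_add (by positivity) (by positivity),
      ← ENNReal.ofReal_add (by positivity) (by positivity)]
    congr 1
    push_cast
    ring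
  have h3 : ∫⁻ p : ℕ × ℕ, (p.1 : ℝ≥0∞) * (p.2 : ℝ≥0∞)
      ∂((poissonMeasure l).prod (poissonMeasure l)) = l * l := by
    rw [lintegral_prod_mul (by fun_prop) (by fun_prop), po_mean]
  have h4 : ∫⁻ p : ℕ × ℕ, (p.1 : ℝ≥0∞) ^ 2
      ∂((poissonMeasure l).prod (poissonMeasure l)) = l * (l + 1) := by
    have := lintegral_prod_mul (μ := poissonMeasure l) (ν := poissonMeasure l)
      (f := fun n => (n : ℝ≥0∞) ^ 2) (g := fun _ => 1) (by fun_prop) (by fun_prop)
    simp only [mul_one, lintegral_const, measure_univ] at this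
    rw [this, po_second]
  have h5 : ∫⁻ p : ℕ × ℕ, (p.2 : ℝ≥0∞) ^ 2
      ∂((poissonMeasure l).prod (poissonMeasure l)) = l * (l + 1) := by
    have := lintegral_prod_mul (μ := poissonMeasure l) (ν := poissonMeasure l)
      (f := fun _ => 1) (g := fun n => (n : ℝ≥0∞) ^ 2) (by fun_prop) (by fun_prop)
    simp only [one_mul, lintegral_const, measure_univ] at this
    rw [this, po_second]
  have h6 : ∫⁻ p : ℕ × ℕ, (W823.QT.sq ((p.1 : ℤ) - p.2) + 2 * ((p.1 : ℝ≥0∞) * (p.2 : ℝ≥0∞)))
      ∂((poissonMeasure l).prod (poissonMeasure l)) = l * (l + 1) + l * (l + 1) := by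
    simp_rw [h2]
    rw [lintegral_add_left (by fun_prop), h4, h5]
  rw [lintegral_add_right _ (by fun_prop), lintegral_const_mul _ (by fun_prop), h3, ← h1] at h6
  have h7 : (l : ℝ≥0∞) * (l + 1) + l * (l + 1) = s + 2 * (l * l) := by
    have e : (s : ℝ≥0∞) = l + l := by
      rw [← ENNReal.coe_add, hl, add_halves]
    rw [e]
    ring
  rw [h7] at h6
  refine (ENNReal.add_left_inj ?_).1 h6
  exact ENNReal.mul_ne_top (by norm_num) (ENNReal.mul_ne_top ENNReal.coe_ne_top ENNReal.coe_ne_top)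

/-! ## The step law -/

instance (d : ℕ) (κ h : ℝ≥0) : IsProbabilityMeasure (stepLaw d κ h) := by
  unfold stepLaw
  infer_instance

theorem pi_conv {d : ℕ} (μ ν : Fin d → Measure ℤ) [∀ i, IsProbabilityMeasure (μ i)]
    [∀ i, IsProbabilityMeasure (ν i)] :
    Measure.pi μ ∗ Measure.pi ν = Measure.pi fun i => μ i ∗ ν i := by
  have h1 := (measurePreserving_arrowProdEquivProdArrow ℤ ℤ (Fin d) μ ν).map_eq
  have h2 := Measure.pi_map_pi (μ := fun i : Fin d => (μ i).prod (ν i))
    (f := fun _ (p : ℤ × ℤ) => p.1 + p.2) (hμ := fun i => by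
      have : IsProbabilityMeasure (((μ i).prod (ν i)).map (fun p : ℤ × ℤ => p.1 + p.2)) :=
        Measure.isProbabilityMeasure_map (by fun_prop)
      infer_instance) (fun i => by fun_prop)
  unfold Measure.conv
  rw [← h1, Measure.map_map (by fun_prop) (MeasurableEquiv.measurable _), ← h2]
  congr 1

theorem stepLaw_add (d : ℕ) (κ s t : ℝ≥0) :
    stepLaw d κ (s + t) = stepLaw d κ s ∗ stepLaw d κ t := by
  unfold stepLaw
  rw [pi_conv]
  congr 1
  funext i
  rw [mul_add, add_div, sk_conv]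

theorem stepLaw_zero (d : ℕ) (κ : ℝ≥0) : stepLaw d κ 0 = Measure.dirac 0 := by
  unfold stepLaw
  have h : (fun _ : Fin d => skellam (κ * 0 / d)) = fun _ => Measure.dirac 0 := by
    funext i
    rw [mul_zero, zero_div, sk_zero]
  rw [h]
  refine (Measure.pi_eq fun s hs => ?_)
  rw [Measure.dirac_apply' _ (MeasurableSet.univ_pi hs)]
  simp_rw [fun i => Measure.dirac_apply' (0 : ℤ) (hs i)]
  by_cases h0 : (0 : Fin d → ℤ) ∈ Set.univ.pi s
  · rw [Set.indicator_of_mem h0]
    symm
    refine Finset.prod_eq_one fun i _ => ?_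
    exact Set.indicator_of_mem (h0 i (Set.mem_univ i)) _
  · rw [Set.indicator_of_notMem h0]
    rw [Set.mem_univ_pi] at h0
    push Not at h0
    obtain ⟨i, hi⟩ := h0
    symm
    refine Finset.prod_eq_zero (Finset.mem_univ i) ?_
    exact Set.indicator_of_notMem hi _

theorem stepLaw_neg (d : ℕ) (κ h : ℝ≥0) :
    (stepLaw d κ h).map (fun x => -x) = stepLaw d κ h := by
  unfold stepLaw
  have h2 := Measure.pi_map_pi (μ := fun _ : Fin d => skellam (κ * h / d))
    (f := fun _ (p : ℤ) => -p) (hμ := fun i => by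
      rw [map_neg]
      infer_instance) (fun i => by fun_prop)
  rw [show (fun x : Fin d → ℤ => -x) = fun x i => -(x i) from rfl, h2]
  congr 1
  funext i
  exact map_neg _

theorem pos_meas (d k : ℕ) : Measurable (fun a : ℕ → Fin d → ℤ => pos a k) := by
  unfold pos
  exact Finset.measurable_sum _ fun i _ => measurable_pi_apply i

theorem pos_law {d : ℕ} (q : Measure (Fin d → ℤ)) [IsProbabilityMeasure q] (k : ℕ) :
    (iid q).map (fun a => pos a (k + 1)) = ((iid q).map (fun a => pos a k)) ∗ q := by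
  unfold iid
  have hI : iIndepFun (fun (i : ℕ) (a : ℕ → Fin d → ℤ) => a i) (Measure.infinitePi fun _ : ℕ => q) :=
    iIndepFun_infinitePi (X := fun _ ω => ω) (by fun_prop)
  have h1 := hI.indepFun_sum_range_succ (fun i => measurable_pi_apply i) k
  have e1 : (∑ j ∈ Finset.range k, (fun a : ℕ → Fin d → ℤ => a j)) = fun a => pos a k := by
    funext a
    rw [Finset.sum_apply]
    rfl
  rw [e1] at h1
  have h2 := h1.map_add_eq_map_conv_map (pos_meas d k) (measurable_pi_apply k)
  have e2 : ((fun a : ℕ → Fin d → ℤ => pos a k) + fun a => a k) = fun a => pos a (k + 1) := by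
    funext a
    show pos a k + a k = pos a (k + 1)
    unfold pos
    rw [Finset.sum_range_succ]
  rw [e2, Measure.infinitePi_map_eval] at h2
  exact h2

theorem pos_stepLaw (d : ℕ) (κ h : ℝ≥0) (k : ℕ) :
    (iid (stepLaw d κ h)).map (fun a => pos a k) = stepLaw d κ (k * h) := by
  induction k with
  | zero =>
    have e : (fun a : ℕ → Fin d → ℤ => pos a 0) = fun _ => 0 := by
      funext a
      unfold pos
      simp
    rw [e, Nat.cast_zero, zero_mul, stepLaw_zero, Measure.map_const]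
    unfold iid
    rw [measure_univ, one_smul]
  | succ k ih =>
    rw [pos_law, ih, ← stepLaw_add]
    congr 1
    push_cast
    ring

theorem main (_ : SUML_T) : STEP_T := by
  intro d κ h
  refine ⟨inferInstance, stepLaw_neg d κ h, ?_, pos_stepLaw d κ h⟩
  intro hd i
  have h1 : ∫⁻ x, sq (x i) ∂(stepLaw d κ h) = ∫⁻ z, sq z ∂(skellam (κ * h / d)) := by
    unfold stepLaw
    exact (measurePreserving_eval (fun _ : Fin d => skellam (κ * h / d)) i).lintegral_comp
      (by fun_prop)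
  rw [h1, sk_second, ← ENNReal.ofReal_coe_nnreal]
  congr 1

end Pool.Agent.W103.QTSTEP
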